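import Mathlib

/-
The geometric piece, the reduction to a cube, and the simplex map.
-/

namespace Pool.Agent.MP_66cee2_co.H71U

open Set
open scoped RealInnerProductSpace

theorem key {V : Type} [NormedAddCommGroup V] [InnerProductSpace ℝ V] {u w : V}
    (hu : ‖u‖ < 1 / 2) (h : 27 / 16 < ‖w - (3 / 2 : ℝ) • u‖ ^ 2) :
    2 * ⟪w, u⟫ < ‖w‖ ^ 2 - ‖w‖ := by
  rw [norm_sub_sq_real, inner_smul_right, norm_smul, Real.norm_eq_abs,
    abs_of_pos (by norm_num : (0 : ℝ) < 3 / 2)] at h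
  nlinarith [sq_nonneg (‖w‖ - 3 / 2), norm_nonneg u]

theorem piece {V : Type} [NormedAddCommGroup V] [InnerProductSpace ℝ V] {x y a b : V}
    (hx : ‖x - a‖ < 1 / 2) (hy : ‖y - b‖ < 1 / 2)
    (h1 : 27 / 16 < ‖b - a - (3 / 2 : ℝ) • (x - a)‖ ^ 2)
    (h2 : 27 / 16 < ‖a - b - (3 / 2 : ℝ) • (y - b)‖ ^ 2) : 1 < ‖x - y‖ := by
  have k1 := key hx h1
  have k2 := key hy h2
  have e : y - x = (b - a) + (y - b) - (x - a) := by abel
  have e2 : ⟪b - a, y - x⟫ = ‖b - a‖ ^ 2 - ⟪a - b, y - b⟫ - ⟪b - a, x - a⟫ := by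
    rw [e, inner_sub_right, inner_add_right, real_inner_self_eq_norm_sq, ← neg_sub b a,
      inner_neg_left]
    ring
  have k3 := real_inner_le_norm (b - a) (y - x)
  rw [norm_sub_rev a b] at k2
  rw [norm_sub_rev y x] at k3
  by_contra h
  rw [not_lt] at h
  nlinarith [mul_le_mul_of_nonneg_left h (norm_nonneg (b - a))]

theorem div_step {a n : ℤ} (hn : 0 < n) (h : ¬ n ∣ a + 1) : (a + 1) / n = a / n := by
  have h1 := Int.emod_nonneg a hn.ne'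
  have h2 := Int.emod_lt_of_pos a hn
  have h3 := Int.emod_add_mul_ediv a n
  have h4 : a % n + 1 ≠ n := fun e => h ⟨a / n + 1, by linarith⟩
  exact ((Int.ediv_emod_unique (r := a % n + 1) hn).2 ⟨by linarith, by omega, by omega⟩).1

theorem div_near {a b n : ℤ} (hn : 0 < n) (ha : ¬ n ∣ a) (hb : ¬ n ∣ b) (h1 : a ≤ b + 1)
    (h2 : b ≤ a + 1) : a / n = b / n := by
  obtain h | h | h : a = b + 1 ∨ a = b ∨ b = a + 1 := by omega
  · subst h
    exact div_step hn ha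
  · rw [h]
  · subst h
    exact (div_step hn hb).symm

theorem shift (d : ℕ) (a : Fin d → ℤ) :
    ∃ k : Fin (d + 1), ∀ i, ¬ ((d : ℤ) + 1) ∣ a i - (k : ℕ) := by
  have hn : (0 : ℤ) < (d : ℤ) + 1 := by omega
  by_contra h
  push Not at h
  choose g hg using h
  have hi : Function.Injective g := fun k k' e => by
    have h1 := hg k
    have h2 := hg k'
    rw [← e] at h2
    have h3 : ((d : ℤ) + 1) ∣ ((k : ℕ) : ℤ) - (k' : ℕ) := by
      have h := dvd_sub h2 h1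
      rwa [sub_sub_sub_cancel_left] at h
    have h4 := Int.eq_zero_of_abs_lt_dvd h3 (abs_lt.2 ⟨by omega, by omega⟩)
    exact Fin.ext (by omega)
  have h5 := Fintype.card_le_of_injective g hi
  simp at h5

/-- from a colouring of a cube to a colouring of space. -/
theorem extend {d : ℕ} {κ : Type} (c : EuclideanSpace ℝ (Fin d) → κ)
    (hc : ∀ x y : EuclideanSpace ℝ (Fin d), (∀ i, 0 ≤ x i ∧ x i < 2 * (d + 1)) →
      (∀ i, 0 ≤ y i ∧ y i < 2 * (d + 1)) → ‖x - y‖ = 1 → c x ≠ c y) :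
    ∃ χ : EuclideanSpace ℝ (Fin d) → Fin (d + 1) × κ, ∀ x y, ‖x - y‖ = 1 → χ x ≠ χ y := by
  have hn : (0 : ℤ) < (d : ℤ) + 1 := by omega
  choose k hk using fun x : EuclideanSpace ℝ (Fin d) => shift d fun i => ⌊x i / 2⌋
  let t : EuclideanSpace ℝ (Fin d) → EuclideanSpace ℝ (Fin d) := fun x => WithLp.toLp 2 fun i =>
    2 * (((k x : ℕ) : ℝ) + (d + 1) * (((⌊x i / 2⌋ - (k x : ℕ)) / ((d : ℤ) + 1) : ℤ) : ℝ))
  have ht : ∀ x i, 0 ≤ (x - t x) i ∧ (x - t x) i < 2 * (d + 1) := fun x i => by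
    have h1 := Int.emod_nonneg (⌊x i / 2⌋ - (k x : ℕ)) hn.ne'
    have h2 := Int.emod_lt_of_pos (⌊x i / 2⌋ - (k x : ℕ)) hn
    have h3 := Int.emod_add_mul_ediv (⌊x i / 2⌋ - (k x : ℕ)) ((d : ℤ) + 1)
    have h4 := Int.floor_le (x i / 2)
    have h5 := Int.lt_floor_add_one (x i / 2)
    have e : (x - t x) i = x i - 2 * (((k x : ℕ) : ℝ) +
      (d + 1) * (((⌊x i / 2⌋ - (k x : ℕ)) / ((d : ℤ) + 1) : ℤ) : ℝ)) := rfl
    rw [e]
    generalize (⌊x i / 2⌋ - (k x : ℕ)) / ((d : ℤ) + 1) = q at h3 ⊢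
    generalize (⌊x i / 2⌋ - (k x : ℕ)) % ((d : ℤ) + 1) = r at h1 h2 h3
    have g1 : (0 : ℝ) ≤ r := by exact_mod_cast h1
    have g2 : (r : ℝ) ≤ d := by exact_mod_cast Int.lt_add_one_iff.1 h2
    have g3 : (r : ℝ) + (d + 1) * q = ⌊x i / 2⌋ - (k x : ℕ) := by exact_mod_cast h3
    constructor <;> linarith
  refine ⟨fun x => (k x, c (x - t x)), fun x y hxy e => ?_⟩
  obtain ⟨e1, e2⟩ := Prod.mk.inj e
  have e3 : t x = t y := by
    ext i
    have h1 : |x i - y i| ≤ 1 := by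
      have h := PiLp.norm_apply_le (x - y) i
      rwa [hxy] at h
    obtain ⟨h2, h3⟩ := abs_le.1 h1
    have h4 : ⌊x i / 2⌋ ≤ ⌊y i / 2⌋ + 1 := by
      rw [← Int.floor_add_one]
      exact Int.floor_le_floor (by linarith)
    have h5 : ⌊y i / 2⌋ ≤ ⌊x i / 2⌋ + 1 := by
      rw [← Int.floor_add_one]
      exact Int.floor_le_floor (by linarith)
    have h6 := hk y i
    rw [← e1] at h6
    have h7 := div_near hn (hk x i) h6 (by omega) (by omega)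
    simp only [t]
    rw [← e1, h7]
  refine hc _ _ (ht x) (ht y) ?_ e2
  rw [e3, sub_sub_sub_cancel_right, hxy]

theorem simplex {d n : ℕ} {κ : Type} [Fintype κ] (hd : 1 ≤ d) (hn : Fintype.card κ ≤ n)
    (χ : EuclideanSpace ℝ (Fin d) → κ) (h : ∀ x y, ‖x - y‖ = 1 → χ x ≠ χ y) :
    ∃ f : EuclideanSpace ℝ (Fin d) → EuclideanSpace ℝ (Fin n),
      (∀ x y, ‖x - y‖ = 1 → ‖f x - f y‖ = 1) ∧ ¬ ∀ x y, ‖f x - f y‖ = ‖x - y‖ := by
  obtain ⟨e⟩ : Nonempty (κ ↪ Fin n) :=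
    Function.Embedding.nonempty_of_card_le (by rwa [Fintype.card_fin])
  have s2 : √(1 / 2 : ℝ) ^ 2 = 1 / 2 := Real.sq_sqrt (by norm_num)
  have s0 : 0 ≤ √(1 / 2 : ℝ) := Real.sqrt_nonneg _
  have nn : ∀ i : Fin n, ‖EuclideanSpace.single i √(1 / 2 : ℝ)‖ = √(1 / 2 : ℝ) := fun i => by
    rw [PiLp.norm_single, Real.norm_eq_abs, abs_of_nonneg s0]
  refine ⟨fun x => EuclideanSpace.single (e (χ x)) √(1 / 2 : ℝ), fun x y hxy => ?_, fun hf => ?_⟩
  · have h1 : e (χ x) ≠ e (χ y) := fun k => h x y hxy (e.injective k)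
    have h2 : ⟪EuclideanSpace.single (e (χ x)) √(1 / 2 : ℝ),
        EuclideanSpace.single (e (χ y)) √(1 / 2 : ℝ)⟫ = 0 := by
      rw [EuclideanSpace.inner_single_left]
      simp [h1]
    refine (sq_eq_sq₀ (norm_nonneg _) zero_le_one).1 ?_
    rw [norm_sub_sq_real, h2, nn, nn, s2]
    norm_num
  · have h1 := hf (EuclideanSpace.single ⟨0, hd⟩ 2) 0
    have h2 := norm_sub_le (EuclideanSpace.single (e (χ (EuclideanSpace.single ⟨0, hd⟩ 2)))
      √(1 / 2 : ℝ)) (EuclideanSpace.single (e (χ 0)) √(1 / 2 : ℝ))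
    rw [h1, nn, nn, sub_zero, PiLp.norm_single, Real.norm_eq_abs, abs_two] at h2
    nlinarith

end Pool.Agent.MP_66cee2_co.H71U
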