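import Mathlib

/-
Random centres: the probability of a good point, and the covering by independent copies.
-/

namespace Pool.Agent.MP_66cee2_co.H71U

open MeasureTheory ProbabilityTheory Set

/-- the point of index `i` lies in `A` and no other point is in relation `D` with it. -/
def Ev {Ω : Type} (m : ℕ) (A : Set Ω) (D : Set (Ω × Ω)) (i : Fin m) : Set (Fin m → Ω) :=
  {ω | ω i ∈ A ∧ ∀ j, j ≠ i → (ω i, ω j) ∉ D}

theorem Ev_meas {Ω : Type} [MeasurableSpace Ω] (m : ℕ) {A : Set Ω} {D : Set (Ω × Ω)}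
    (hA : MeasurableSet A) (hD : MeasurableSet D) (i : Fin m) : MeasurableSet (Ev m A D i) := by
  have e : Ev m A D i = (fun ω : Fin m → Ω => ω i) ⁻¹' A ∩
      ⋂ j, ⋂ _ : j ≠ i, (fun ω : Fin m → Ω => (ω i, ω j)) ⁻¹' Dᶜ := by
    ext ω
    simp [Ev]
  rw [e]
  exact (measurable_pi_apply i hA).inter (MeasurableSet.iInter fun j => MeasurableSet.iInter
    fun _ => ((measurable_pi_apply i).prodMk (measurable_pi_apply j)) hD.compl)

theorem pair {Ω : Type} [MeasurableSpace Ω] (μ : Measure Ω) [IsProbabilityMeasure μ] {m : ℕ}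
    {A : Set Ω} {D : Set (Ω × Ω)} (hA : MeasurableSet A) (hD : MeasurableSet D) {v : ℝ}
    (v0 : 0 ≤ v) (hv : ∀ a, μ.real {b | (a, b) ∈ D} ≤ v) {i j : Fin m} (hij : i ≠ j) :
    (Measure.pi fun _ : Fin m => μ).real
      ((fun ω : Fin m → Ω => (ω i, ω j)) ⁻¹' (A ×ˢ univ ∩ D)) ≤ μ.real A * v := by
  have hI : iIndepFun (fun (k : Fin m) (ω : Fin m → Ω) => ω k) (Measure.pi fun _ => μ) :=
    iIndepFun_pi (X := fun _ => id) fun _ => aemeasurable_id
  have h1 := (indepFun_iff_map_prod_eq_prod_map_map (measurable_pi_apply i).aemeasurable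
    (measurable_pi_apply j).aemeasurable).1 (hI.indepFun hij)
  rw [(measurePreserving_eval (fun _ : Fin m => μ) i).map_eq,
    (measurePreserving_eval (fun _ : Fin m => μ) j).map_eq] at h1
  have hS : MeasurableSet (A ×ˢ (univ : Set Ω) ∩ D) := (hA.prod MeasurableSet.univ).inter hD
  have h2 : (μ.prod μ) (A ×ˢ univ ∩ D) ≤ ENNReal.ofReal v * μ A := by
    rw [Measure.prod_apply hS, ← lintegral_indicator_const hA]
    refine lintegral_mono fun a => ?_
    by_cases ha : a ∈ A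
    · rw [indicator_of_mem ha]
      refine (measure_mono (t := {b | (a, b) ∈ D}) fun b hb => hb.2).trans ?_
      rw [← ofReal_measureReal]
      exact ENNReal.ofReal_le_ofReal (hv a)
    · have e : Prod.mk a ⁻¹' (A ×ˢ (univ : Set Ω) ∩ D) = ∅ :=
        eq_empty_of_forall_notMem fun b hb => ha hb.1.1
      simp [e]
  rw [measureReal_def, ← Measure.map_apply ((measurable_pi_apply i).prodMk
    (measurable_pi_apply j)) hS, h1]
  have h3 := ENNReal.toReal_mono (ENNReal.mul_ne_top ENNReal.ofReal_ne_top (measure_ne_top _ _)) h2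
  rwa [ENNReal.toReal_mul, ENNReal.toReal_ofReal v0, mul_comm] at h3

theorem one {Ω : Type} [MeasurableSpace Ω] (μ : Measure Ω) [IsProbabilityMeasure μ] {m : ℕ}
    {A : Set Ω} {D : Set (Ω × Ω)} (hA : MeasurableSet A) (hD : MeasurableSet D) {v : ℝ}
    (v0 : 0 ≤ v) (hv : ∀ a, μ.real {b | (a, b) ∈ D} ≤ v) (i : Fin m) :
    μ.real A * (1 - m * v) ≤ (Measure.pi fun _ : Fin m => μ).real (Ev m A D i) := by
  have h1 : (fun ω : Fin m → Ω => ω i) ⁻¹' A ⊆ Ev m A D i ∪
      ⋃ j ∈ Finset.univ.erase i, (fun ω : Fin m → Ω => (ω i, ω j)) ⁻¹' (A ×ˢ univ ∩ D) := by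
    intro ω hω
    by_cases h : ∀ j, j ≠ i → (ω i, ω j) ∉ D
    · exact Or.inl ⟨hω, h⟩
    · push Not at h
      obtain ⟨j, hj, hd⟩ := h
      exact Or.inr (mem_biUnion (Finset.mem_erase.2 ⟨hj, Finset.mem_univ j⟩) ⟨⟨hω, trivial⟩, hd⟩)
  have h2 : (Measure.pi fun _ : Fin m => μ).real ((fun ω : Fin m → Ω => ω i) ⁻¹' A) =
      μ.real A := (measurePreserving_eval (fun _ : Fin m => μ) i).measureReal_preimage
        hA.nullMeasurableSet
  have h3 := (measureReal_mono (μ := Measure.pi fun _ : Fin m => μ) h1).trans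
    (measureReal_union_le _ _)
  have h4 := (measureReal_biUnion_finset_le (μ := Measure.pi fun _ : Fin m => μ)
    (Finset.univ.erase i)
    fun j => (fun ω : Fin m → Ω => (ω i, ω j)) ⁻¹' (A ×ˢ univ ∩ D)).trans
    (Finset.sum_le_card_nsmul _ _ (μ.real A * v) fun j hj =>
      pair μ hA hD v0 hv (Finset.mem_erase.1 hj).1.symm)
  have h5 : ((Finset.univ.erase i).card : ℝ) ≤ m := by
    have h := Finset.card_le_univ (Finset.univ.erase i)
    rw [Fintype.card_fin] at h
    exact_mod_cast h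
  have h6 := mul_le_mul_of_nonneg_right h5 (mul_nonneg (measureReal_nonneg (μ := μ) (s := A)) v0)
  rw [nsmul_eq_mul] at h4
  rw [h2] at h3
  linarith

theorem all {Ω : Type} [MeasurableSpace Ω] (μ : Measure Ω) [IsProbabilityMeasure μ] {m : ℕ}
    {A : Set Ω} {D : Set (Ω × Ω)} (hA : MeasurableSet A) (hD : MeasurableSet D) {v : ℝ}
    (v0 : 0 ≤ v) (hv : ∀ a, μ.real {b | (a, b) ∈ D} ≤ v)
    (hd : ∀ a ∈ A, ∀ b ∈ A, (a, b) ∈ D ∨ (b, a) ∈ D) :
    (Measure.pi fun _ : Fin m => μ).real (⋃ i, Ev m A D i)ᶜ ≤ 1 - m * (μ.real A * (1 - m * v)) := by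
  rw [probReal_compl_eq_one_sub (MeasurableSet.iUnion (Ev_meas m hA hD)),
    measureReal_iUnion_fintype (fun i j hij => disjoint_left.2 fun ω h1 h2 =>
      (hd _ h1.1 _ h2.1).elim (h1.2 j hij.symm) (h2.2 i hij)) (Ev_meas m hA hD)]
  have h := Finset.card_nsmul_le_sum Finset.univ
    (fun i => (Measure.pi fun _ : Fin m => μ).real (Ev m A D i)) _ fun i _ => one μ hA hD v0 hv i
  rw [Finset.card_univ, Fintype.card_fin, nsmul_eq_mul] at h
  linarith

theorem cover {Ω ι : Type} [MeasurableSpace Ω] [Fintype ι] (P : Measure Ω)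
    [IsProbabilityMeasure P] (U : ι → Set Ω) {p : ℝ} (hp : ∀ s, P.real (U s)ᶜ ≤ 1 - p) (N : ℕ)
    (hN : (Fintype.card ι : ℝ) < Real.exp (p * N)) : ∃ ω : Fin N → Ω, ∀ s, ∃ k, ω k ∈ U s := by
  by_contra h
  push Not at h
  have h1 : (univ : Set (Fin N → Ω)) ⊆ ⋃ s ∈ Finset.univ, Set.pi univ fun _ => (U s)ᶜ := by
    intro ω _
    obtain ⟨s, hs⟩ := h ω
    exact mem_biUnion (Finset.mem_univ s) fun k _ => hs k
  have h2 : ∀ s, (Measure.pi fun _ : Fin N => P).real (Set.pi univ fun _ => (U s)ᶜ) ≤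
      (Real.exp (p * N))⁻¹ := fun s => by
    rw [measureReal_def, Measure.pi_pi, Finset.prod_const, Finset.card_univ, Fintype.card_fin,
      ENNReal.toReal_pow, ← Real.exp_neg, ← neg_mul, mul_comm, Real.exp_nat_mul]
    exact pow_le_pow_left₀ ENNReal.toReal_nonneg
      ((hp s).trans (by linarith [Real.add_one_le_exp (-p)])) N
  have h3 := ((measureReal_mono (μ := Measure.pi fun _ : Fin N => P) h1 (measure_ne_top _ _)).trans
    (measureReal_biUnion_finset_le _ _)).trans (Finset.sum_le_card_nsmul _ _ _ fun s _ => h2 s)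
  rw [probReal_univ, Finset.card_univ, nsmul_eq_mul, ← div_eq_mul_inv,
    one_le_div (Real.exp_pos _)] at h3
  linarith

end Pool.Agent.MP_66cee2_co.H71U
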