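import Pool.Agent.MP_66cee2_co.H71U.Geo
import Pool.Agent.MP_66cee2_co.H71U.Prob

/-
A unit distance preserving map that is not an isometry, in exponential codimension.
-/

namespace Pool.Agent.MP_66cee2_co.H71U

open MeasureTheory ProbabilityTheory Set Metric Filter Topology

theorem norm_le {d : ℕ} (hd : 1 ≤ d) (v : EuclideanSpace ℝ (Fin d)) {t : ℝ} (ht : 0 ≤ t)
    (h : ∀ i, |v i| ≤ t) : ‖v‖ ≤ d * t := by
  have d1 : (1 : ℝ) ≤ d := by exact_mod_cast hd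
  have h1 : ∑ i, v i ^ 2 ≤ d * t ^ 2 := by
    have h2 := Finset.sum_le_card_nsmul Finset.univ (fun i => v i ^ 2) (t ^ 2) fun i _ => by
      rw [← sq_abs]
      exact pow_le_pow_left₀ (abs_nonneg _) (h i) 2
    rwa [Finset.card_univ, Fintype.card_fin, nsmul_eq_mul] at h2
  refine le_of_sq_le_sq ?_ (by positivity)
  rw [EuclideanSpace.real_norm_sq_eq, mul_pow]
  nlinarith [mul_nonneg (mul_nonneg (sub_nonneg.2 d1) (zero_le_one.trans d1)) (sq_nonneg t)]

theorem unif {d : ℕ} {R : ℝ} (hR : 0 < R) : ∃ μ : Measure (EuclideanSpace ℝ (Fin d)),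
    IsProbabilityMeasure μ ∧
    (∀ z r, 0 < r → ‖z‖ + r ≤ R → μ.real (ball z r) = (r / R) ^ d) ∧
    ∀ z r, 0 < r → μ.real (closedBall z r) ≤ (r / R) ^ d := by
  have b0 : (volume (ball (0 : EuclideanSpace ℝ (Fin d)) 1)).toReal ≠ 0 :=
    ENNReal.toReal_ne_zero.2 ⟨(measure_ball_pos _ _ one_pos).ne', measure_ball_lt_top.ne⟩
  have vb : ∀ (z : EuclideanSpace ℝ (Fin d)) r, 0 < r → (volume (ball z r)).toReal =
      r ^ d * (volume (ball (0 : EuclideanSpace ℝ (Fin d)) 1)).toReal := fun z r hr => by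
    rw [Measure.addHaar_ball_of_pos _ _ hr, ENNReal.toReal_mul,
      ENNReal.toReal_ofReal (by positivity), finrank_euclideanSpace_fin]
  have vc : ∀ (z : EuclideanSpace ℝ (Fin d)) r, 0 < r → (volume (closedBall z r)).toReal =
      r ^ d * (volume (ball (0 : EuclideanSpace ℝ (Fin d)) 1)).toReal := fun z r hr => by
    rw [Measure.addHaar_closedBall _ _ hr.le, ENNReal.toReal_mul,
      ENNReal.toReal_ofReal (by positivity), finrank_euclideanSpace_fin]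
  refine ⟨cond volume (ball 0 R), cond_isProbabilityMeasure_of_finite
    (measure_ball_pos _ _ hR).ne' measure_ball_lt_top.ne, fun z r hr h => ?_, fun z r hr => ?_⟩
  · have hs : ball z r ⊆ ball 0 R := ball_subset_ball' (by rw [dist_zero_right]; linarith)
    rw [measureReal_def, cond_apply measurableSet_ball, inter_eq_right.2 hs, ENNReal.toReal_mul,
      ENNReal.toReal_inv, vb _ _ hR, vb z _ hr, div_pow]
    field_simp
  · have h1 : (volume (ball (0 : EuclideanSpace ℝ (Fin d)) R ∩ closedBall z r)).toReal ≤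
        (volume (closedBall z r)).toReal :=
      ENNReal.toReal_mono measure_closedBall_lt_top.ne (measure_mono inter_subset_right)
    rw [measureReal_def, cond_apply measurableSet_ball, ENNReal.toReal_mul, ENNReal.toReal_inv]
    refine (mul_le_mul_of_nonneg_left h1 (by positivity)).trans (le_of_eq ?_)
    rw [vb _ _ hR, vc z _ hr, div_pow]
    field_simp

theorem cube {d K N : ℕ} (hd : 1 ≤ d) (hK : 3 ≤ K) {σ : ℝ} (s0 : 0 ≤ σ) (s2 : σ ≤ 2)
    (s1 : 27 / 16 ≤ σ ^ 2)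
    (hN : 8 * (d * (2 * (d + 1) * (d * K))) * ((σ + 3 / 2 * (1 / K)) / (1 / 2 - 1 / K)) ^ d ≤ N) :
    ∃ c : EuclideanSpace ℝ (Fin d) → Fin N, ∀ x y : EuclideanSpace ℝ (Fin d),
      (∀ i, 0 ≤ x i ∧ x i < 2 * (d + 1)) → (∀ i, 0 ≤ y i ∧ y i < 2 * (d + 1)) → ‖x - y‖ = 1 →
      c x ≠ c y := by
  have d1 : (1 : ℝ) ≤ d := by exact_mod_cast hd
  have K3 : (3 : ℝ) ≤ K := by exact_mod_cast hK
  obtain ⟨δ, hδ⟩ : ∃ δ : ℝ, δ = 1 / K := ⟨_, rfl⟩
  rw [← hδ] at hN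
  have δ0 : 0 < δ := by rw [hδ]; positivity
  have δ1 : δ ≤ 1 / 3 := by rw [hδ]; exact one_div_le_one_div_of_le (by norm_num) K3
  obtain ⟨r, hr⟩ : ∃ r : ℝ, r = 1 / 2 - δ := ⟨_, rfl⟩
  obtain ⟨ρ, hρ⟩ : ∃ ρ : ℝ, ρ = σ + 3 / 2 * δ := ⟨_, rfl⟩
  rw [← hr, ← hρ] at hN
  have r0 : 0 < r := by linarith
  have ρ0 : 0 < ρ := by linarith
  obtain ⟨R, hR⟩ : ∃ R : ℝ, R = d * (2 * (d + 1)) + 1 := ⟨_, rfl⟩
  have R5 : 5 ≤ R := by nlinarith
  have R0 : 0 < R := by linarith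
  obtain ⟨μ, hμ, mb, mc⟩ := unif (d := d) R0
  obtain ⟨v, hv⟩ : ∃ v : ℝ, v = (ρ / R) ^ d := ⟨_, rfl⟩
  have v0 : 0 < v := by rw [hv]; positivity
  have v1 : v ≤ 1 / 2 := by
    have h : ρ / R ≤ 1 / 2 := by rw [div_le_iff₀ R0]; linarith
    rw [hv]
    exact (pow_le_of_le_one (by positivity) (by linarith) (by omega)).trans h
  obtain ⟨m, m1, m2⟩ : ∃ m : ℕ, m * v ≤ 1 / 2 ∧ 1 / 4 ≤ m * v := by
    have h1 : (1 : ℝ) ≤ 1 / (2 * v) := by rw [le_div_iff₀ (by positivity)]; linarith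
    have h2 := Nat.floor_le (zero_le_one.trans h1)
    have h3 := Nat.lt_floor_add_one (1 / (2 * v))
    have h4 : (1 : ℝ) ≤ (⌊1 / (2 * v)⌋₊ : ℕ) := by
      exact_mod_cast Nat.le_floor (by exact_mod_cast h1)
    rw [le_div_iff₀ (by positivity)] at h2
    rw [div_lt_iff₀ (by positivity)] at h3
    exact ⟨⌊1 / (2 * v)⌋₊, by linarith, by nlinarith⟩
  have M0 : (0 : ℝ) < d * K := by positivity
  let s : (Fin d → Fin (2 * (d + 1) * (d * K))) → EuclideanSpace ℝ (Fin d) := fun k =>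
    WithLp.toLp 2 fun i => ((k i : ℕ) : ℝ) / (d * K)
  have hs : ∀ k, ‖s k‖ + r ≤ R := fun k => by
    have h := norm_le hd (s k) (t := 2 * (d + 1)) (by positivity) fun i => by
      have h1 : ((k i : ℕ) : ℝ) ≤ 2 * (d + 1) * (d * K) := by exact_mod_cast (k i).2.le
      have e : s k i = ((k i : ℕ) : ℝ) / (d * K) := rfl
      rw [e, abs_of_nonneg (by positivity), div_le_iff₀ M0]
      exact h1
    linarith
  let D : EuclideanSpace ℝ (Fin d) → Set (EuclideanSpace ℝ (Fin d) × EuclideanSpace ℝ (Fin d)) :=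
    fun z => {w | ‖w.2 - w.1 - (3 / 2 : ℝ) • (z - w.1)‖ ≤ ρ}
  have hD : ∀ z, MeasurableSet (D z) := fun z =>
    (isClosed_le (by fun_prop) continuous_const).measurableSet
  have far : ∀ z x a b : EuclideanSpace ℝ (Fin d), ‖x - z‖ ≤ δ → (a, b) ∉ D z →
      27 / 16 < ‖b - a - (3 / 2 : ℝ) • (x - a)‖ ^ 2 := fun z x a b h1 h2 => by
    have h3 : ρ < ‖b - a - (3 / 2 : ℝ) • (z - a)‖ := not_le.1 h2
    have e : b - a - (3 / 2 : ℝ) • (z - a) =
        b - a - (3 / 2 : ℝ) • (x - a) + (3 / 2 : ℝ) • (x - z) := by module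
    have h4 := norm_add_le (b - a - (3 / 2 : ℝ) • (x - a)) ((3 / 2 : ℝ) • (x - z))
    rw [← e, norm_smul, Real.norm_eq_abs, abs_of_pos (by norm_num : (0 : ℝ) < 3 / 2)] at h4
    have h5 : σ < ‖b - a - (3 / 2 : ℝ) • (x - a)‖ := by linarith
    nlinarith
  have near : ∀ z x a : EuclideanSpace ℝ (Fin d), ‖x - z‖ ≤ δ → a ∈ ball z r →
      ‖x - a‖ < 1 / 2 := fun z x a h1 h2 => by
    rw [mem_ball', dist_eq_norm] at h2
    linarith [norm_sub_le_norm_sub_add_norm_sub x z a]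
  obtain ⟨ω, hω⟩ := cover (Measure.pi fun _ : Fin m => μ)
    (fun k => ⋃ i, Ev m (ball (s k) r) (D (s k)) i) (p := (r / ρ) ^ d / 8) (fun k => by
      refine (all μ measurableSet_ball (hD _) v0.le (fun a => ?_) fun a ha b hb => ?_).trans ?_
      · rw [hv]
        refine le_of_eq_of_le ?_ (mc (a + (3 / 2 : ℝ) • (s k - a)) ρ ρ0)
        congr 1
        ext b
        simp only [D, mem_ofPred_eq, mem_closedBall, dist_eq_norm, sub_sub]
      · by_contra h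
        rw [not_or] at h
        have z0 : ‖s k - s k‖ ≤ δ := by rw [sub_self, norm_zero]; exact δ0.le
        have h1 := piece (near _ _ _ z0 ha) (near _ _ _ z0 hb) (far _ _ _ _ z0 h.1)
          (far _ _ _ _ z0 h.2)
        rw [sub_self, norm_zero] at h1
        linarith
      · have e : (r / R) ^ d = (r / ρ) ^ d * v := by
          rw [hv, ← mul_pow]
          congr 1
          field_simp
        have p0 : 0 < (r / ρ) ^ d := by positivity
        have h1 : 1 / 4 * (1 / 2) ≤ m * v * (1 - m * v) :=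
          mul_le_mul m2 (by linarith) (by norm_num) (by positivity)
        rw [mb _ _ r0 (hs k), e]
        nlinarith [mul_le_mul_of_nonneg_left h1 p0.le]) N (by
      rw [Fintype.card_fun, Fintype.card_fin, Fintype.card_fin]
      push_cast
      have T0 : 0 ≤ 2 * ((d : ℝ) + 1) * (d * K) := by positivity
      generalize (2 * ((d : ℝ) + 1) * (d * K)) = T at hN T0 ⊢
      have p0 : 0 < (r / ρ) ^ d := by positivity
      have e : (ρ / r) ^ d * (r / ρ) ^ d = 1 := by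
        rw [← mul_pow, div_mul_div_cancel₀ r0.ne', div_self ρ0.ne', one_pow]
      have h1 : d * T ≤ (r / ρ) ^ d / 8 * N := by
        have h := mul_le_mul_of_nonneg_right hN p0.le
        rw [mul_assoc, e] at h
        linarith
      refine lt_of_lt_of_le ?_ (Real.exp_le_exp.2 h1)
      rw [Real.exp_nat_mul]
      exact pow_lt_pow_left₀ (by linarith [Real.add_one_le_exp T]) T0 (by omega))
  have net : ∀ x : EuclideanSpace ℝ (Fin d), ∃ k,
      (∀ i, 0 ≤ x i ∧ x i < 2 * (d + 1)) → ‖x - s k‖ ≤ δ := fun x => by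
    by_cases hx : ∀ i, 0 ≤ x i ∧ x i < 2 * (d + 1)
    · have h1 : ∀ i, ⌊x i * (d * K)⌋₊ < 2 * (d + 1) * (d * K) := fun i => by
        rw [Nat.floor_lt (mul_nonneg (hx i).1 M0.le)]
        push_cast
        exact mul_lt_mul_of_pos_right (hx i).2 M0
      refine ⟨fun i => ⟨_, h1 i⟩, fun _ => ?_⟩
      refine (norm_le hd _ (t := 1 / (d * K)) (by positivity) fun i => ?_).trans (le_of_eq ?_)
      · have h2 := Nat.floor_le (mul_nonneg (hx i).1 M0.le)
        have h3 := Nat.lt_floor_add_one (x i * (d * K))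
        have e : (x - s fun i => ⟨_, h1 i⟩) i =
            (x i * (d * K) - (⌊x i * (d * K)⌋₊ : ℝ)) / (d * K) := by
          rw [sub_div, mul_div_cancel_right₀ _ M0.ne']
          rfl
        rw [e, abs_div, abs_of_pos M0, abs_of_nonneg (by linarith)]
        exact div_le_div_of_nonneg_right (by linarith) M0.le
      · rw [hδ]
        field_simp
    · exact ⟨fun _ => ⟨0, by positivity⟩, fun h => (hx h).elim⟩
  choose k hk using net
  choose c hc using hω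
  refine ⟨fun x => c (k x), fun x y hx hy hxy e => ?_⟩
  obtain ⟨i, i1, i2⟩ := mem_iUnion.1 (hc (k x))
  obtain ⟨j, j1, j2⟩ := mem_iUnion.1 (hc (k y))
  have e' : c (k x) = c (k y) := e
  rw [← e'] at j1 j2
  have n1 := near _ _ _ (hk x hx) i1
  have n2 := near _ _ _ (hk y hy) j1
  by_cases hij : i = j
  · subst hij
    have h := norm_sub_le_norm_sub_add_norm_sub x (ω (c (k x)) i) y
    rw [norm_sub_rev (ω (c (k x)) i) y] at h
    linarith
  · have h := piece n1 n2 (far _ _ _ _ (hk x hx) (i2 j (Ne.symm hij)))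
      (far _ _ _ _ (hk y hy) (j2 i hij))
    linarith

theorem upper (c : ℝ) (hc : 3 * √3 / 2 < c) : ∃ d₀ : ℕ, ∀ d n : ℕ, d₀ ≤ d → c ^ d ≤ (n : ℝ) →
    ∃ f : EuclideanSpace ℝ (Fin d) → EuclideanSpace ℝ (Fin n),
      (∀ x y, ‖x - y‖ = 1 → ‖f x - f y‖ = 1) ∧ ¬ ∀ x y, ‖f x - f y‖ = ‖x - y‖ := by
  have t2 : √3 ^ 2 = (3 : ℝ) := Real.sq_sqrt (by norm_num)
  have t0 : 0 ≤ √(3 : ℝ) := Real.sqrt_nonneg _
  have t1 : 1 ≤ √(3 : ℝ) := by nlinarith
  have t3 : √(3 : ℝ) ≤ 2 := by nlinarith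
  have c0 : 0 < c := by linarith
  obtain ⟨K₀, hK₀⟩ := exists_nat_gt ((3 / 2 + c) / (c / 2 - 3 * √3 / 4))
  obtain ⟨K, hK, hK'⟩ : ∃ K : ℕ, 3 ≤ K ∧ K₀ ≤ K := ⟨max 3 K₀, le_max_left _ _, le_max_right _ _⟩
  have K3 : (3 : ℝ) ≤ K := by exact_mod_cast hK
  have K4 : (K₀ : ℝ) ≤ K := by exact_mod_cast hK'
  have δ0 : (0 : ℝ) < 1 / K := by positivity
  have δ1 : (1 : ℝ) / K ≤ 1 / 3 := one_div_le_one_div_of_le (by norm_num) K3
  have δ2 : (3 / 2 + c) * (1 / K) < c / 2 - 3 * √3 / 4 := by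
    have h := hK₀.trans_le K4
    rw [div_lt_iff₀ (by linarith)] at h
    rw [mul_one_div, div_lt_iff₀ (by linarith)]
    linarith
  obtain ⟨θ, hθ⟩ : ∃ θ : ℝ, θ = (3 * √3 / 4 + 3 / 2 * (1 / K)) / (1 / 2 - 1 / K) := ⟨_, rfl⟩
  have θ1 : 1 ≤ θ := by rw [hθ, le_div_iff₀ (by linarith)]; linarith
  have θ2 : θ < c := by rw [hθ, div_lt_iff₀ (by linarith)]; linarith
  have hl := tendsto_pow_const_mul_const_pow_of_abs_lt_one 4 (r := θ / c) (by
    rw [abs_of_nonneg (by positivity)]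
    exact (div_lt_one c0).2 θ2)
  obtain ⟨d₀, h₀⟩ := eventually_atTop.1
    (hl.eventually (gt_mem_nhds (show (0 : ℝ) < 1 / (70 * K) by positivity)))
  refine ⟨max 1 d₀, fun d n hd hn => ?_⟩
  have hd1 : 1 ≤ d := (le_max_left _ _).trans hd
  have d1 : (1 : ℝ) ≤ d := by exact_mod_cast hd1
  have h1 := h₀ d ((le_max_right _ _).trans hd)
  rw [div_pow, ← mul_div_assoc, div_lt_div_iff₀ (by positivity) (by positivity), one_mul] at h1
  obtain ⟨col, hcol⟩ := cube (d := d) (K := K)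
    (N := ⌈8 * (d * (2 * (d + 1) * (d * K))) * θ ^ d⌉₊) hd1 hK (σ := 3 * √3 / 4) (by positivity)
    (by linarith) (by nlinarith) (by rw [← hθ]; exact Nat.le_ceil _)
  obtain ⟨χ, hχ⟩ := extend col hcol
  refine simplex hd1 ?_ χ hχ
  rw [Fintype.card_prod, Fintype.card_fin, Fintype.card_fin]
  have h2 := Nat.ceil_lt_add_one
    (show (0 : ℝ) ≤ 8 * (d * (2 * (d + 1) * (d * K))) * θ ^ d by positivity)
  have h3 : (1 : ℝ) ≤ θ ^ d := one_le_pow₀ θ1
  obtain ⟨W, hW⟩ : ∃ W : ℝ, W = K * θ ^ d := ⟨_, rfl⟩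
  have W1 : 1 ≤ W := by rw [hW]; nlinarith
  have h4 : (8 : ℝ) * (d * (2 * (d + 1) * (d * K))) * θ ^ d = 16 * (d ^ 2 * (d + 1) * W) := by
    rw [hW]; ring
  have h5 : (d : ℝ) ^ 4 * θ ^ d * (70 * K) = 70 * (d ^ 4 * W) := by rw [hW]; ring
  have h6 : (d : ℝ) + 1 ≤ 2 * d := by linarith
  have h7 : (d : ℝ) ^ 2 * (d + 1) * W ≤ d ^ 2 * (2 * d) * W := by gcongr
  have h8 : (1 : ℝ) ≤ d ^ 3 * W := one_le_mul_of_one_le_of_one_le (one_le_pow₀ d1) W1
  have h9 : ((⌈8 * (d * (2 * (d + 1) * (d * K))) * θ ^ d⌉₊ : ℕ) : ℝ) ≤ 33 * (d ^ 3 * W) := by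
    nlinarith
  have h10 := mul_le_mul h6 h9 (by positivity) (by positivity)
  have h11 : (((d + 1) * ⌈8 * (d * (2 * (d + 1) * (d * K))) * θ ^ d⌉₊ : ℕ) : ℝ) ≤ n := by
    push_cast
    have h12 : (0 : ℝ) ≤ d ^ 4 * W := by positivity
    nlinarith
  exact_mod_cast h11

end Pool.Agent.MP_66cee2_co.H71U
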