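import Pool.Agent.MP_66cee2_co.H71U.Main

/-
The explicit form, in every dimension.
-/

namespace Pool.Agent.MP_66cee2_co.H71U

theorem upperP (d n : ℕ) (hd : 1 ≤ d) (hn : 1000 * (d : ℝ) ^ 5 * (3 * √3 / 2) ^ d ≤ n) :
    ∃ f : EuclideanSpace ℝ (Fin d) → EuclideanSpace ℝ (Fin n),
      (∀ x y, ‖x - y‖ = 1 → ‖f x - f y‖ = 1) ∧ ¬ ∀ x y, ‖f x - f y‖ = ‖x - y‖ := by
  have t2 : √3 ^ 2 = (3 : ℝ) := Real.sq_sqrt (by norm_num)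
  have t0 : 0 ≤ √(3 : ℝ) := Real.sqrt_nonneg _
  have t1 : 17 / 10 ≤ √(3 : ℝ) := by nlinarith
  have t3 : √(3 : ℝ) ≤ 2 := by nlinarith
  have d1 : (1 : ℝ) ≤ d := by exact_mod_cast hd
  obtain ⟨δ, hδ⟩ : ∃ δ : ℝ, δ = 1 / ((10 * d : ℕ) : ℝ) := ⟨_, rfl⟩
  have δe : d * δ = 1 / 10 := by
    rw [hδ]
    push_cast
    field_simp
  have δ0 : 0 < δ := by rw [hδ]; positivity
  have δ1 : δ ≤ 1 / 10 := by nlinarith
  obtain ⟨θ, hθ⟩ : ∃ θ : ℝ, θ = (3 * √3 / 4 + 3 / 2 * δ) / (1 / 2 - δ) := ⟨_, rfl⟩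
  have θ1 : 1 ≤ θ := by rw [hθ, le_div_iff₀ (by linarith)]; linarith
  have θ2 : θ ≤ 3 * √3 / 2 * (1 + 4 * δ) := by
    rw [hθ, div_le_iff₀ (by linarith)]
    have h1 : 17 / 10 * (δ * (1 - 4 * δ)) ≤ √3 * (δ * (1 - 4 * δ)) :=
      mul_le_mul_of_nonneg_right t1 (mul_nonneg δ0.le (by linarith))
    nlinarith
  have e1 : (1 + 4 * δ) ^ d ≤ 3 / 2 := by
    have h1 : (1 + 4 * δ) ^ d ≤ Real.exp (4 * δ) ^ d :=
      pow_le_pow_left₀ (by linarith) (by linarith [Real.add_one_le_exp (4 * δ)]) d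
    rw [← Real.exp_nat_mul, show (d : ℝ) * (4 * δ) = 2 / 5 by linarith] at h1
    have h2 := Real.exp_bound' (x := 2 / 5) (by norm_num) (by norm_num) (n := 3) (by norm_num)
    norm_num [Finset.sum_range_succ, Nat.factorial] at h2
    linarith
  have θ3 : θ ^ d ≤ (3 * √3 / 2) ^ d * (3 / 2) := by
    refine (pow_le_pow_left₀ (by linarith) θ2 d).trans ?_
    rw [mul_pow]
    exact mul_le_mul_of_nonneg_left e1 (by positivity)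
  obtain ⟨col, hcol⟩ := cube (d := d) (K := 10 * d)
    (N := ⌈8 * (d * (2 * (d + 1) * (d * ((10 * d : ℕ) : ℝ)))) * θ ^ d⌉₊) hd (by omega)
    (σ := 3 * √3 / 4) (by positivity) (by linarith) (by nlinarith)
    (by rw [← hδ, ← hθ]; exact Nat.le_ceil _)
  obtain ⟨χ, hχ⟩ := extend col hcol
  refine simplex hd ?_ χ hχ
  rw [Fintype.card_prod, Fintype.card_fin, Fintype.card_fin]
  have h2 := Nat.ceil_lt_add_one
    (show (0 : ℝ) ≤ 8 * (d * (2 * (d + 1) * (d * ((10 * d : ℕ) : ℝ)))) * θ ^ d by positivity)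
  have W1 : (1 : ℝ) ≤ θ ^ d := one_le_pow₀ θ1
  have h4 : (8 : ℝ) * (d * (2 * (d + 1) * (d * ((10 * d : ℕ) : ℝ)))) * θ ^ d =
      160 * (d ^ 3 * (d + 1) * θ ^ d) := by
    push_cast
    ring
  have h6 : (d : ℝ) + 1 ≤ 2 * d := by linarith
  have h7 : (d : ℝ) ^ 3 * (d + 1) * θ ^ d ≤ d ^ 3 * (2 * d) * θ ^ d := by gcongr
  have h8 : (1 : ℝ) ≤ d ^ 4 * θ ^ d := one_le_mul_of_one_le_of_one_le (one_le_pow₀ d1) W1
  have h9 : ((⌈8 * (d * (2 * (d + 1) * (d * ((10 * d : ℕ) : ℝ)))) * θ ^ d⌉₊ : ℕ) : ℝ) ≤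
      321 * (d ^ 4 * θ ^ d) := by
    nlinarith
  have h10 := mul_le_mul h6 h9 (by positivity) (by positivity)
  have h12 : (d : ℝ) ^ 5 * θ ^ d ≤ d ^ 5 * ((3 * √3 / 2) ^ d * (3 / 2)) :=
    mul_le_mul_of_nonneg_left θ3 (by positivity)
  have h13 : (0 : ℝ) ≤ d ^ 5 * (3 * √3 / 2) ^ d := by positivity
  have h11 : (((d + 1) * ⌈8 * (d * (2 * (d + 1) * (d * ((10 * d : ℕ) : ℝ)))) * θ ^ d⌉₊ : ℕ) : ℝ) ≤
      n := by
    rw [Nat.cast_mul, Nat.cast_add, Nat.cast_one]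
    nlinarith
  exact_mod_cast h11

end Pool.Agent.MP_66cee2_co.H71U
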